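import Pool.Agent.H31.XCE.Targets

/-!
# MP_c59857_nt, row WLK: traces of products as sums over closed paths
-/

set_option autoImplicit false

open Finset Pool.Agent.H31.XCE

namespace Pool.Agent.H46.XCE

section

variable {σ : Type}

theorem pth_congr (nx : ℕ → ℤ → σ → ℤ) (i : ℤ) (w w' : ℕ → σ) :
    ∀ t, (∀ u < t, w u = w' u) → pth nx i w t = pth nx i w' t := by
  intro t
  induction t with
  | zero => intro _; rfl
  | succ t ih =>
    intro h
    rw [pth, pth, ih fun u hu => h u (by omega), h t (by omega)]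

variable [Inhabited σ]

theorem ext_snoc_lt {n : ℕ} (w : Fin n → σ) (s : σ) (t : ℕ) (ht : t < n) :
    ext (Fin.snoc (α := fun _ => σ) w s : Fin (n + 1) → σ) t = ext w t := by
  unfold Pool.Agent.H31.XCE.ext
  rw [dif_pos (by omega : t < n + 1), dif_pos ht]
  exact Fin.snoc_castSucc (α := fun _ => σ) s w ⟨t, ht⟩

theorem ext_snoc_eq {n : ℕ} (w : Fin n → σ) (s : σ) :
    ext (Fin.snoc (α := fun _ => σ) w s : Fin (n + 1) → σ) n = s := by
  unfold Pool.Agent.H31.XCE.ext
  rw [dif_pos (by omega : n < n + 1)]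
  exact Fin.snoc_last (α := fun _ => σ) s w

theorem pth_snoc {n : ℕ} (nx : ℕ → ℤ → σ → ℤ) (i : ℤ) (w : Fin n → σ) (s : σ) (t : ℕ)
    (ht : t ≤ n) :
    pth nx i (ext (Fin.snoc (α := fun _ => σ) w s : Fin (n + 1) → σ)) t =
      pth nx i (ext w) t :=
  pth_congr nx i _ _ t fun u hu => ext_snoc_lt w s u (by omega)

theorem pth_snoc_last {n : ℕ} (nx : ℕ → ℤ → σ → ℤ) (i : ℤ) (w : Fin n → σ) (s : σ) :
    pth nx i (ext (Fin.snoc (α := fun _ => σ) w s : Fin (n + 1) → σ)) (n + 1) =
      nx n (pth nx i (ext w) n) s := by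
  rw [pth, pth_snoc nx i w s n le_rfl, ext_snoc_eq]

open Classical in
/-- the entries of the product -/
theorem entry (St : Finset σ) (nx : ℕ → ℤ → σ → ℤ) (ξ : ℕ → ℤ → σ → ℂ) (m : ℕ)
    (V : ℕ → Matrix (Lam m) (Lam m) ℂ)
    (hV : ∀ (t : ℕ) (i j : Lam m), V t i j = ∑ s ∈ St, if nx t i.1 s = j.1 then ξ t i.1 s else 0) :
    ∀ (n : ℕ) (i j : Lam m), prd V n i j = ∑ w ∈ Fintype.piFinset (fun _ : Fin n => St),
      if (∀ t ≤ n, pth nx i (ext w) t ∈ Finset.Icc (-(m : ℤ)) m) ∧ pth nx i (ext w) n = j then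
        ∏ t : Fin n, ξ t (pth nx i (ext w) t) (w t) else 0 := by
  intro n
  induction n with
  | zero =>
    intro i j
    rw [prd, Matrix.one_apply]
    have h1 : Fintype.piFinset (fun _ : Fin 0 => St) = {Fin.elim0} := by
      ext w
      simp only [Fintype.mem_piFinset, Finset.mem_singleton]
      constructor
      · intro _
        exact Subsingleton.elim _ _
      · intro _ a
        exact a.elim0
    rw [h1, Finset.sum_singleton]
    by_cases hij : i = j
    · rw [if_pos hij, if_pos]
      · simp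
      · refine ⟨fun t ht => ?_, ?_⟩
        · obtain rfl : t = 0 := by omega
          exact i.2
        · rw [hij]; rfl
    · rw [if_neg hij, if_neg]
      rintro ⟨-, h2⟩
      exact hij (Subtype.ext h2)
  | succ n ih =>
    intro i j
    -- the right side
    have hR : ∑ w ∈ Fintype.piFinset (fun _ : Fin (n + 1) => St),
        (if (∀ t ≤ n + 1, pth nx i (ext w) t ∈ Finset.Icc (-(m : ℤ)) m) ∧
          pth nx i (ext w) (n + 1) = j then
        ∏ t : Fin (n + 1), ξ t (pth nx i (ext w) t) (w t) else 0) =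
        ∑ w ∈ Fintype.piFinset (fun _ : Fin n => St), ∑ s ∈ St,
          (if (∀ t ≤ n, pth nx i (ext w) t ∈ Finset.Icc (-(m : ℤ)) m) ∧
            nx n (pth nx i (ext w) n) s = j then
          (∏ t : Fin n, ξ t (pth nx i (ext w) t) (w t)) * ξ n (pth nx i (ext w) n) s else 0) := by
      rw [← Finset.sum_product']
      refine Finset.sum_bij' (fun w _ => (Fin.init w, w (Fin.last n)))
        (fun q _ => (Fin.snoc (α := fun _ => σ) q.1 q.2 : Fin (n + 1) → σ)) ?_ ?_ ?_ ?_ ?_
      · intro w hw
        rw [Fintype.mem_piFinset] at hw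
        rw [Finset.mem_product, Fintype.mem_piFinset]
        exact ⟨fun a => hw _, hw _⟩
      · intro q hq
        rw [Finset.mem_product, Fintype.mem_piFinset] at hq
        rw [Fintype.mem_piFinset]
        intro a
        refine Fin.lastCases ?_ (fun a => ?_) a
        · rw [Fin.snoc_last]; exact hq.2
        · rw [Fin.snoc_castSucc]; exact hq.1 a
      · intro w _
        exact Fin.snoc_init_self w
      · intro q _
        rw [Fin.init_snoc, Fin.snoc_last]
      · intro w _
        obtain ⟨w0, s, rfl⟩ : ∃ (w0 : Fin n → σ) (s : σ),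
            w = (Fin.snoc (α := fun _ => σ) w0 s : Fin (n + 1) → σ) :=
          ⟨Fin.init w, w (Fin.last n), (Fin.snoc_init_self w).symm⟩
        simp only [Fin.init_snoc, Fin.snoc_last]
        have hc : ((∀ t ≤ n + 1, pth nx i (ext (Fin.snoc (α := fun _ => σ) w0 s :
            Fin (n + 1) → σ)) t ∈ Finset.Icc (-(m : ℤ)) m) ∧
            pth nx i (ext (Fin.snoc (α := fun _ => σ) w0 s : Fin (n + 1) → σ)) (n + 1) = j) ↔
            ((∀ t ≤ n, pth nx i (ext w0) t ∈ Finset.Icc (-(m : ℤ)) m) ∧
            nx n (pth nx i (ext w0) n) s = j) := by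
          rw [pth_snoc_last]
          constructor
          · rintro ⟨h1, h2⟩
            refine ⟨fun t ht => ?_, h2⟩
            rw [← pth_snoc nx i w0 s t ht]
            exact h1 t (by omega)
          · rintro ⟨h1, h2⟩
            refine ⟨fun t ht => ?_, h2⟩
            rcases Nat.lt_or_ge n t with h3 | h3
            · obtain rfl : t = n + 1 := by omega
              rw [pth_snoc_last, h2]
              exact j.2
            · rw [pth_snoc nx i w0 s t h3]
              exact h1 t h3
        have hp : ∏ t : Fin (n + 1), ξ t (pth nx i (ext (Fin.snoc (α := fun _ => σ) w0 s :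
            Fin (n + 1) → σ)) t) ((Fin.snoc (α := fun _ => σ) w0 s : Fin (n + 1) → σ) t) =
            (∏ t : Fin n, ξ t (pth nx i (ext w0) t) (w0 t)) * ξ n (pth nx i (ext w0) n) s := by
          rw [Fin.prod_univ_castSucc]
          congr 1
          · refine Finset.prod_congr rfl fun t _ => ?_
            rw [Fin.snoc_castSucc, Fin.val_castSucc, pth_snoc nx i w0 s t t.2.le]
          · rw [Fin.snoc_last, Fin.val_last, pth_snoc nx i w0 s n le_rfl]
        rw [if_congr hc hp rfl]
    rw [hR, prd, Matrix.mul_apply]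
    simp only [ih, hV, Finset.sum_mul_sum]
    refine Finset.sum_comm.trans (Finset.sum_congr rfl fun w _ => ?_)
    refine Finset.sum_comm.trans (Finset.sum_congr rfl fun s _ => ?_)
    by_cases hA : ∀ t ≤ n, pth nx i (ext w) t ∈ Finset.Icc (-(m : ℤ)) m
    · rw [Finset.sum_eq_single (⟨pth nx i (ext w) n, hA n le_rfl⟩ : Lam m)]
      · by_cases hj : nx n (pth nx i (ext w) n) s = j
        · rw [if_pos ⟨hA, rfl⟩, if_pos hj, if_pos ⟨hA, hj⟩]
        · rw [if_pos ⟨hA, rfl⟩, if_neg hj, mul_zero, if_neg fun h => hj h.2]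
      · intro k _ hk
        rw [if_neg, zero_mul]
        rintro ⟨-, h2⟩
        exact hk (Subtype.ext h2.symm)
      · intro h
        exact absurd (Finset.mem_univ _) h
    · rw [if_neg (fun h => hA h.1)]
      refine Finset.sum_eq_zero fun k _ => ?_
      rw [if_neg fun h => hA h.1, zero_mul]

end

theorem pf_WLK : T_WLK := by
  classical
  intro σ _ St nx ξ m n V hV
  rw [Matrix.trace]
  rw [← Finset.sum_coe_sort (Finset.Icc (-(m : ℤ)) m)]
  refine Finset.sum_congr rfl fun i _ => ?_
  rw [Matrix.diag_apply, entry St nx ξ m V hV n i i]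
  refine Finset.sum_congr rfl fun w _ => ?_
  unfold Closed
  congr

end Pool.Agent.H46.XCE
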